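import Pool.Agent.Y248.ND.Bas
import Pool.Agent.Y5.S2.Defs

/-! Completion of a system of packets to an orthonormal system, with an even number of modes in every
group, and pairing of the other modes (for helper5's S_ONB6). -/

open Set Filter Topology MeasureTheory

set_option autoImplicit false

namespace Pool.Agent.Y809.S2

open Pool.Agent.Y5 Pool.Agent.Y5.D Pool.Agent.Y5.S2
open Pool.Agent.Y5.G (hp)
open Pool.Agent.Y248.ND (vec_neg OT.zero H box mem_box Em mem_Em memlp_of supp_box finite_Em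
  finrank_Em inner_eq_pair)

/-! ### A complex structure has even dimension -/

theorem even_finrank {V : Type*} [AddCommGroup V] [Module ℝ V]
    (T : V →ₗ[ℝ] V) (hT : ∀ v, T (T v) = -v) : Even (Module.finrank ℝ V) := by
  by_contra hodd
  rw [Nat.not_even_iff_odd] at hodd
  have h1 : T ∘ₗ T = (-1 : ℝ) • LinearMap.id := by
    ext v
    rw [LinearMap.comp_apply, hT v, neg_smul, one_smul, LinearMap.neg_apply, LinearMap.id_apply]
  have h2 : LinearMap.det T * LinearMap.det T = (-1 : ℝ) ^ Module.finrank ℝ V := by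
    rw [← LinearMap.det_comp, h1, LinearMap.det_smul, LinearMap.det_id, mul_one]
  rw [hodd.neg_one_pow] at h2
  nlinarith [mul_self_nonneg (LinearMap.det T)]

/-! ### Rotation by 90 degrees of the tangential planes -/

/-- the vector product with `vec k` -/
noncomputable def cr (k : Z3) (v : E3) : E3 :=
  WithLp.toLp 2 ![(k 1 : ℝ) * v 2 - k 2 * v 1, (k 2 : ℝ) * v 0 - k 0 * v 2,
    (k 0 : ℝ) * v 1 - k 1 * v 0]

theorem cr0 (k : Z3) (v : E3) : cr k v 0 = (k 1 : ℝ) * v 2 - k 2 * v 1 := rfl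
theorem cr1 (k : Z3) (v : E3) : cr k v 1 = (k 2 : ℝ) * v 0 - k 0 * v 2 := rfl
theorem cr2 (k : Z3) (v : E3) : cr k v 2 = (k 0 : ℝ) * v 1 - k 1 * v 0 := rfl

theorem ext3 {v w : E3} (h0 : v 0 = w 0) (h1 : v 1 = w 1) (h2 : v 2 = w 2) : v = w := by
  ext i
  fin_cases i
  · exact h0
  · exact h1
  · exact h2

theorem cr_add (k : Z3) (v w : E3) : cr k (v + w) = cr k v + cr k w := by
  apply ext3 <;> simp only [cr0, cr1, cr2, PiLp.add_apply] <;> ring

theorem cr_smul (k : Z3) (c : ℝ) (v : E3) : cr k (c • v) = c • cr k v := by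
  apply ext3 <;> simp only [cr0, cr1, cr2, PiLp.smul_apply, smul_eq_mul] <;> ring

theorem cr_neg (k : Z3) (v : E3) : cr k (-v) = -cr k v := by
  apply ext3 <;> simp only [cr0, cr1, cr2, PiLp.neg_apply] <;> ring

theorem cr_zero (k : Z3) : cr k 0 = 0 := by
  apply ext3 <;> simp only [cr0, cr1, cr2, PiLp.zero_apply] <;> ring

theorem neg_cr (k : Z3) (v : E3) : cr (-k) v = -cr k v := by
  apply ext3 <;> simp only [cr0, cr1, cr2, PiLp.neg_apply, Pi.neg_apply, Int.cast_neg] <;> ring

theorem inner3 (v w : E3) : inner ℝ v w = v 0 * w 0 + v 1 * w 1 + v 2 * w 2 := by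
  rw [PiLp.inner_apply, Fin.sum_univ_three]
  simp only [RCLike.inner_apply, conj_trivial]
  ring

theorem vec_ap (k : Z3) (i : Fin 3) : vec k i = (k i : ℝ) := rfl

theorem inner_cr (k : Z3) (v : E3) : inner ℝ (vec k) (cr k v) = 0 := by
  rw [inner3]
  simp only [cr0, cr1, cr2, vec_ap]
  ring

theorem cr_cr {k : Z3} {v : E3} (h : inner ℝ (vec k) v = 0) :
    cr k (cr k v) = -(‖vec k‖ ^ 2 • v) := by
  have h2 : ‖vec k‖ ^ 2 = (k 0 : ℝ) * k 0 + k 1 * k 1 + k 2 * k 2 := by
    rw [← real_inner_self_eq_norm_sq, inner3]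
    simp only [vec_ap]
  rw [inner3] at h
  simp only [vec_ap] at h
  rw [h2]
  apply ext3 <;> simp only [cr0, cr1, cr2, PiLp.neg_apply, PiLp.smul_apply, smul_eq_mul]
  · linear_combination (k 0 : ℝ) * h
  · linear_combination (k 1 : ℝ) * h
  · linear_combination (k 2 : ℝ) * h

open Classical in
/-- an odd sign -/
noncomputable def sg (k : Z3) : ℝ := if hp k then 1 else -1

theorem sg_sq (k : Z3) : sg k * sg k = 1 := by
  unfold sg
  split_ifs <;> norm_num

theorem sg_neg {k : Z3} (hk : k ≠ 0) : sg (-k) = -sg k := by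
  have h0 : k 0 ≠ 0 ∨ k 1 ≠ 0 ∨ k 2 ≠ 0 := by
    by_contra h
    push Not at h
    apply hk
    funext i
    fin_cases i
    · exact h.1
    · exact h.2.1
    · exact h.2.2
  have h1 : hp (-k) ↔ ¬ hp k := by
    unfold hp
    simp only [Pi.neg_apply]
    omega
  unfold sg
  by_cases h : hp k
  · rw [if_pos h, if_neg (by rw [h1]; exact not_not.2 h)]
  · rw [if_neg h, if_pos (h1.2 h), neg_neg]

/-- the rotated family -/
noncomputable def rt (V : Fam) : Fam := fun k => (sg k / ‖vec k‖) • cr k (V k)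

theorem norm_vec_ne {k : Z3} (hk : k ≠ 0) : ‖vec k‖ ≠ 0 := by
  intro h
  have h1 := Pool.Agent.Y248.ND.one_le_vec hk
  linarith

theorem rt_ne {V : Fam} {k : Z3} (h : rt V k ≠ 0) : V k ≠ 0 := by
  intro h1
  apply h
  unfold rt
  rw [h1, cr_zero, smul_zero]

theorem rt_ot {V : Fam} (hV : OT V) : OT (rt V) := by
  refine ⟨fun k => ?_, fun k => ?_⟩
  · unfold rt
    by_cases hk : k = 0
    · subst hk
      rw [neg_zero, OT.zero hV, cr_zero, smul_zero, neg_zero]
    · rw [sg_neg hk, vec_neg, norm_neg, hV.odd k, cr_neg, neg_cr, neg_neg, neg_div, neg_smul]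
  · unfold rt
    rw [inner_smul_right, inner_cr, mul_zero]

theorem rt_rt {V : Fam} (hV : OT V) : rt (rt V) = -V := by
  funext k
  unfold rt
  rw [Pi.neg_apply]
  by_cases hk : k = 0
  · subst hk
    rw [OT.zero hV, cr_zero, smul_zero, cr_zero, smul_zero, neg_zero]
  · have h1 := norm_vec_ne hk
    rw [cr_smul, cr_cr (hV.tan k), smul_smul, smul_neg, smul_smul]
    have h2 : sg k / ‖vec k‖ * (sg k / ‖vec k‖) * ‖vec k‖ ^ 2 = 1 := by
      have h3 : sg k / ‖vec k‖ * (sg k / ‖vec k‖) * ‖vec k‖ ^ 2 =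
          (sg k * sg k) * (‖vec k‖ ^ 2 / ‖vec k‖ ^ 2) := by ring
      rw [h3, sg_sq, div_self (pow_ne_zero 2 h1), mul_one]
    rw [h2, one_smul]

/-- the rotation of the families of a group -/
noncomputable def Rt (G : Z3 → ℕ) (N : ℕ → ℕ) (hG : ∀ k, k ≠ 0 → k ∈ box (N (G k))) (m : ℕ) :
    Em G m →ₗ[ℝ] Em G m where
  toFun V := ⟨⟨rt ((V : H) : Z3 → E3), memlp_of _ (box (N m))
    (fun k hk => supp_box hG V.2 k (rt_ne hk))⟩, rt_ot V.2.1, fun k hk => V.2.2 k (rt_ne hk)⟩
  map_add' V W := by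
    apply Subtype.ext
    apply lp.ext
    funext k
    show rt ((V : H) + (W : H) : Z3 → E3) k = rt ((V : H) : Z3 → E3) k + rt ((W : H) : Z3 → E3) k
    unfold rt
    rw [Pi.add_apply, cr_add, smul_add]
  map_smul' c V := by
    apply Subtype.ext
    apply lp.ext
    funext k
    show rt (c • ((V : H) : Z3 → E3)) k = c • rt ((V : H) : Z3 → E3) k
    unfold rt
    rw [Pi.smul_apply, cr_smul, smul_comm]

theorem even_Em {G : Z3 → ℕ} {N : ℕ → ℕ} (hG : ∀ k, k ≠ 0 → k ∈ box (N (G k))) (m : ℕ) :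
    Even (Module.finrank ℝ (Em G m)) := by
  apply even_finrank (Rt G N hG m)
  intro V
  apply Subtype.ext
  apply lp.ext
  show rt (rt ((V : H) : Z3 → E3)) = _
  rw [rt_rt V.2.1]
  rfl

/-! ### The completion -/

theorem basis2 (G : Z3 → ℕ) (N : ℕ → ℕ) (P : ℕ → Fam) (hG : ∀ k, k ≠ 0 → k ∈ box (N (G k)))
    (hneg : ∀ k, G (-k) = G k) (hP : ∀ n, OT (P n)) (hs : ∀ n k, P n k ≠ 0 → G k = n)
    (h1 : ∀ n, pair (P n) (P n) = 1) :
    ∃ (J : Type) (g : J → ℕ) (E : Ix J → H), (∀ n, (E (Sum.inl n) : Z3 → E3) = P n) ∧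
      Orthonormal ℝ E ∧ (∀ a, OT (E a : Z3 → E3)) ∧
      (∀ a k, (E a : Z3 → E3) k ≠ 0 → G k = gr g a) ∧ (∀ m, {j | g j = m}.Finite) ∧
      (∀ m, {j | g j = m}.ncard ≤ (2 * N m + 1) ^ 3 * 3) ∧
      (∀ V : Fam, OT V → (∀ a, pair V (E a : Z3 → E3) = 0) → ∀ k, V k = 0) ∧
      ∀ m, Even ({j | g j = m}.ncard + 1) := by
  classical
  -- finite support of the packets
  have hfin : ∀ (m : ℕ) (V : Fam), OT V → (∀ k, V k ≠ 0 → G k = m) → ∀ k, V k ≠ 0 →
      k ∈ box (N m) := by
    intro m V hV h k hk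
    have h0 : k ≠ 0 := by
      rintro rfl
      exact hk (OT.zero hV)
    have := hG k h0
    rwa [h k hk] at this
  let mk : ∀ (m : ℕ) (V : Fam), OT V → (∀ k, V k ≠ 0 → G k = m) → Em G m :=
    fun m V hV h => ⟨⟨V, memlp_of V (box (N m)) (hfin m V hV h)⟩, ⟨hV, h⟩⟩
  have mk_coe : ∀ m V hV h, (((mk m V hV h : Em G m) : H) : Z3 → E3) = V := fun _ _ _ _ => rfl
  let pm : ∀ n, Em G n := fun n => mk n (P n) (hP n) (hs n)
  have pm_coe : ∀ n, (((pm n : Em G n) : H) : Z3 → E3) = P n := fun _ => rfl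
  have hfd : ∀ m, FiniteDimensional ℝ (Em G m) := fun m => finite_Em hG m
  have hpm : ∀ n, ‖pm n‖ = 1 := by
    intro n
    have h2 : ‖pm n‖ ^ 2 = 1 := by
      rw [← real_inner_self_eq_norm_sq, Submodule.coe_inner, inner_eq_pair, pm_coe, h1]
    have h3 : (‖pm n‖ - 1) * (‖pm n‖ + 1) = 0 := by linear_combination h2
    rcases mul_eq_zero.1 h3 with h4 | h4
    · linarith
    · have := norm_nonneg (pm n); linarith
  have hon : ∀ n, Orthonormal ℝ ((↑) : ({pm n} : Set (Em G n)) → Em G n) := by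
    intro n
    refine ⟨?_, ?_⟩
    · rintro ⟨x, hx⟩
      rw [mem_singleton_iff] at hx
      subst hx
      exact hpm n
    · rintro ⟨x, hx⟩ ⟨y, hy⟩ hxy
      rw [mem_singleton_iff] at hx hy
      subst hx; subst hy
      exact absurd rfl hxy
  choose u b hvu hb using fun n => (hon n).exists_orthonormalBasis_extension
  have hpu : ∀ n, pm n ∈ u n := fun n => by
    have := hvu n (mem_singleton (pm n))
    exact_mod_cast this
  have hno : ∀ n, ∀ x ∈ u n, ‖(x : H)‖ = 1 := by
    intro n x hx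
    have := (b n).orthonormal.1 ⟨x, hx⟩
    rw [hb n] at this
    exact this
  have hort : ∀ n, ∀ x ∈ u n, ∀ y ∈ u n, x ≠ y → inner ℝ (x : H) (y : H) = 0 := by
    intro n x hx y hy hxy
    have := (b n).orthonormal.2 (i := ⟨x, hx⟩) (j := ⟨y, hy⟩) (by
      intro h; exact hxy (congrArg Subtype.val h))
    rw [hb n] at this
    exact this
  have hdis : ∀ (n m : ℕ) (x : Em G n) (y : Em G m), n ≠ m → inner ℝ (x : H) (y : H) = 0 := by
    intro n m x y hnm
    rw [inner_eq_pair, pair]
    have : ∀ k, inner ℝ (((x : H) : Z3 → E3) k) (((y : H) : Z3 → E3) k) = 0 := by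
      intro k
      by_cases hx : ((x : H) : Z3 → E3) k = 0
      · rw [hx, inner_zero_left]
      · by_cases hy : ((y : H) : Z3 → E3) k = 0
        · rw [hy, inner_zero_right]
        · exact absurd ((x.2.2 k hx).symm.trans (y.2.2 k hy)) hnm
    simp only [this, tsum_zero]
  let J : Type := Σ n : ℕ, {x : Em G n // x ∈ u n ∧ x ≠ pm n}
  let g : J → ℕ := Sigma.fst
  let E : Ix J → H := Sum.elim (fun n => (pm n : H)) (fun j => (j.2.1 : H))
  have hE : ∀ a, ∃ x : Em G (gr g a), x ∈ u (gr g a) ∧ E a = (x : H) := by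
    rintro (n | j)
    · exact ⟨pm n, hpu n, rfl⟩
    · exact ⟨j.2.1, j.2.2.1, rfl⟩
  have hsub : ∀ m, {j : J | g j = m} =
      (fun x : {x : Em G m // x ∈ u m ∧ x ≠ pm m} => (⟨m, x⟩ : J)) '' univ := by
    intro m
    apply Subset.antisymm
    · rintro ⟨n, x⟩ hj
      have hj' : n = m := hj
      subst hj'
      exact ⟨x, mem_univ _, rfl⟩
    · rintro j ⟨x, -, rfl⟩
      exact rfl
  have hinj : ∀ m, Function.Injective
      (fun x : {x : Em G m // x ∈ u m ∧ x ≠ pm m} => (⟨m, x⟩ : J)) := by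
    intro m x y hxy
    have h2 := Sigma.mk.inj_iff.1 hxy
    exact eq_of_heq h2.2
  have hfinite : ∀ m, Finite {x : Em G m // x ∈ u m ∧ x ≠ pm m} := by
    intro m
    exact Finite.of_injective (fun x => (⟨x.1, x.2.1⟩ : u m)) (by
      intro x y hxy
      have := congrArg Subtype.val hxy
      exact Subtype.ext this)
  have hcard : ∀ m, {j : J | g j = m}.ncard + 1 = Module.finrank ℝ (Em G m) := by
    intro m
    have := hfinite m
    have := hfd m
    have h3 : Nat.card (u m) = Module.finrank ℝ (Em G m) := by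
      rw [Module.finrank_eq_nat_card_basis (b m).toBasis]
    have h4 : (u m : Set (Em G m)).Finite := Set.toFinite _
    have h5 : {x : Em G m | x ∈ u m ∧ x ≠ pm m} = (u m : Set (Em G m)) \ {pm m} := by
      ext x
      simp only [mem_ofPred_eq, Set.mem_sdiff, mem_singleton_iff, ne_eq]
      rfl
    rw [hsub m, ncard_image_of_injective _ (hinj m), ncard_univ, ← h3]
    have h6 : Nat.card {x : Em G m // x ∈ u m ∧ x ≠ pm m} =
        ((u m : Set (Em G m)) \ {pm m}).ncard := by
      rw [← h5]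
      rfl
    have h7 : Nat.card (u m) = (u m : Set (Em G m)).ncard := rfl
    rw [h6, h7]
    exact ncard_sdiff_singleton_add_one (hpu m) h4
  refine ⟨J, g, E, fun n => pm_coe n, ⟨?_, ?_⟩, ?_, ?_, ?_, ?_, ?_, ?_⟩
  · intro a
    obtain ⟨x, hx, hx'⟩ := hE a
    rw [hx']
    exact hno _ x hx
  · rintro (n | ⟨n, x⟩) (m | ⟨m, y⟩) hab
    · exact hdis n m (pm n) (pm m) (fun h => hab (by rw [h]))
    · by_cases hnm : n = m
      · subst hnm
        exact hort n (pm n) (hpu n) y.1 y.2.1 (fun h => y.2.2 h.symm)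
      · exact hdis n m (pm n) y.1 hnm
    · by_cases hnm : n = m
      · subst hnm
        exact hort n x.1 x.2.1 (pm n) (hpu n) x.2.2
      · exact hdis n m x.1 (pm m) hnm
    · by_cases hnm : n = m
      · subst hnm
        exact hort n x.1 x.2.1 y.1 y.2.1 (fun h => hab (by rw [Subtype.ext h]))
      · exact hdis n m x.1 y.1 hnm
  · intro a
    obtain ⟨x, hx, hx'⟩ := hE a
    rw [hx']
    exact x.2.1
  · intro a k hk
    obtain ⟨x, hx, hx'⟩ := hE a
    rw [hx'] at hk
    exact x.2.2 k hk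
  · intro m
    have := hfinite m
    rw [hsub m]
    exact finite_univ.image _
  · intro m
    have h2 := hcard m
    have h3 := finrank_Em hG m
    omega
  · intro V hV hpair k
    set n := G k with hn
    have hV' : OT (fun l => if G l = n then V l else 0) := by
      refine ⟨fun l => ?_, fun l => ?_⟩
      · simp only [hneg l]
        split_ifs
        · exact hV.odd l
        · simp
      · split_ifs
        · exact hV.tan l
        · simp
    let W : Em G n := mk n (fun l => if G l = n then V l else 0) hV' (by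
      intro l hl
      by_contra h
      exact hl (if_neg h))
    have hW : (((W : Em G n) : H) : Z3 → E3) = fun l => if G l = n then V l else 0 := rfl
    have hWx : ∀ x ∈ u n, inner ℝ ((x : Em G n) : H) (W : H) = 0 := by
      intro x hx
      have h2 : inner ℝ (W : H) ((x : Em G n) : H) = pair V ((x : H) : Z3 → E3) := by
        rw [inner_eq_pair, pair, pair]
        refine tsum_congr fun l => ?_
        rw [hW]
        simp only
        split_ifs with hl
        · rfl
        · have : ((x : H) : Z3 → E3) l = 0 := by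
            by_contra h
            exact hl (x.2.2 l h)
          rw [this, inner_zero_right, inner_zero_right]
      rw [real_inner_comm, h2]
      by_cases hxp : x = pm n
      · rw [hxp]
        exact hpair (Sum.inl n)
      · exact hpair (Sum.inr ⟨n, x, hx, hxp⟩)
    have hW0 : W = 0 := by
      refine InnerProductSpace.ext_inner_left_basis (b n).toBasis fun i => ?_
      rw [inner_zero_right, OrthonormalBasis.coe_toBasis, hb n, Submodule.coe_inner]
      exact hWx i.1 i.2
    have h3 : ((W : H) : Z3 → E3) k = 0 := by rw [hW0]; rfl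
    rw [hW] at h3
    simpa [hn] using h3
  · intro m
    rw [hcard m]
    exact even_Em hG m

/-! ### Pairing -/

theorem pairing {J : Type} (f : J → ℕ) (hfin : ∀ m, {j | f j = m}.Finite)
    (hev : ∀ m, Even {j | f j = m}.ncard) : ∃ (σ : J → J) (τ : J → ℝ), (∀ j, σ (σ j) = j) ∧
      (∀ j, f (σ j) = f j) ∧ (∀ j, τ (σ j) = -τ j) ∧ ∀ j, τ j ^ 2 = 1 := by
  classical
  choose r hr using hev
  have he : ∀ m, Nonempty ({j // f j = m} ≃ Fin (r m) × Bool) := by
    intro m
    have h1 : Finite {j // f j = m} := hfin m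
    rw [← Finite.card_eq]
    show {j | f j = m}.ncard = _
    rw [Nat.card_prod, Nat.card_fin, Nat.card_eq_fintype_card, Fintype.card_bool, hr m]
    omega
  have e : ∀ m, {j // f j = m} ≃ Fin (r m) × Bool := fun m => (he m).some
  let E : J ≃ Σ m : ℕ, Fin (r m) × Bool :=
    (Equiv.sigmaFiberEquiv f).symm.trans (Equiv.sigmaCongrRight e)
  have hE1 : ∀ j, (E j).1 = f j := fun j => rfl
  let fl : (Σ m : ℕ, Fin (r m) × Bool) → (Σ m : ℕ, Fin (r m) × Bool) :=
    fun x => ⟨x.1, x.2.1, !x.2.2⟩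
  have hfl : ∀ x, fl (fl x) = x := by
    rintro ⟨m, i, b⟩
    show (⟨m, i, !!b⟩ : Σ m : ℕ, Fin (r m) × Bool) = ⟨m, i, b⟩
    rw [Bool.not_not]
  let σ : J → J := fun j => E.symm (fl (E j))
  have hσ : ∀ j, E (σ j) = fl (E j) := fun j => E.apply_symm_apply _
  refine ⟨σ, fun j => if (E j).2.2 = true then 1 else -1, ?_, ?_, ?_, ?_⟩
  · intro j
    show E.symm (fl (E (σ j))) = j
    rw [hσ, hfl, E.symm_apply_apply]
  · intro j
    rw [← hE1, hσ, ← hE1]
  · intro j
    show (if (E (σ j)).2.2 = true then (1 : ℝ) else -1) = -(if (E j).2.2 = true then 1 else -1)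
    rw [hσ]
    show (if (!(E j).2.2) = true then (1 : ℝ) else -1) = -(if (E j).2.2 = true then 1 else -1)
    cases (E j).2.2 <;> simp
  · intro j
    simp only
    split_ifs <;> norm_num

theorem exists_rot {J : Type} (g : J → ℕ) (hfin : ∀ m, {j | g j = m}.Finite)
    (hodd : ∀ m, Even ({j | g j = m}.ncard + 1)) :
    ∃ (σ : J → J) (τ : J → ℝ), Rot2 g σ τ := by
  have hset : ∀ m, {j | g j / 2 = m} = {j | g j = 2 * m} ∪ {j | g j = 2 * m + 1} := by
    intro m
    ext j
    simp only [mem_ofPred_eq, mem_union]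
    omega
  obtain ⟨σ, τ, h1, h2, h3, h4⟩ := pairing (fun j => g j / 2)
    (fun m => by rw [hset m]; exact (hfin _).union (hfin _))
    (fun m => by
      rw [hset m, ncard_union_eq ?_ (hfin _) (hfin _)]
      · have h1 := hodd (2 * m)
        have h2 := hodd (2 * m + 1)
        rw [Nat.even_iff] at h1 h2 ⊢
        omega
      · rw [Set.disjoint_left]
        intro j hj hj'
        simp only [mem_ofPred_eq] at hj hj'
        omega)
  exact ⟨σ, τ, h1, h2, h3, h4⟩

end Pool.Agent.Y809.S2
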